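import Pool.Agent.HTRank.Abs6
import Pool.Agent.HTRank.Rem
import Pool.Agent.HTRank.Init
import Pool.Agent.HTRank.Compl
import Pool.Agent.HTRank.CombA
import Pool.Agent.HTRank.CombB
import Pool.Agent.HTRank.Det5
import Pool.Agent.HTRank.Top
import Pool.Agent.HTRank.Union
import Pool.Agent.HTRank.Final

/-!
MP_e07d11_pr, Q1 (negative answer): for the determinantal random 2-dimensional hypertree `T_n`
there is `ε > 0` such that the probability that the fundamental group of the geometric
realization of `T_n` needs more than `ε n ^ 2` generators tends to 1.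
-/

set_option autoImplicit false

namespace Pool.Agent.Results.MP_e07d11_pr.RankQuadratic

open Pool.Agent.HTRank

theorem result : ∃ ε : ℝ, 0 < ε ∧ Filter.Tendsto (fun n : ℕ => htProb n (fun S =>
    ∀ x : geom n S, mgGt (FundamentalGroup (geom n S) x) (ε * (n : ℝ) ^ 2)))
    Filter.atTop (nhds 1) :=
  final (Abs.abstract_of Compl.targetCompletion RemJ.targetRem InitJ.targetInit)
    (targetComb_of CombA.targetQ CombB.targetPres) Det.targetDet Union.targetUnion Top.targetTop

end Pool.Agent.Results.MP_e07d11_pr.RankQuadratic
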